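import Mathlib
import Pool.Agent.ZPK.StmtsL

/-!
# Squad ZPK, row LGB (helper27): basic facts on the logarithm.
-/

set_option autoImplicit false

namespace Pool.Agent.ZPK.H27

open Pool.Agent.ZPT Pool.Agent.ZP3

noncomputable section

theorem nrm_nat {p : ℕ} (K : Type) [NormedField K] [CharZero K] (hE : Ext p K) (n : ℕ) :
    ‖(n : K)‖ = ((padicNorm p n : ℚ) : ℝ) := by
  have h := hE (n : ℚ)
  simpa using h

theorem nrm_p {p : ℕ} (hp : p.Prime) (K : Type) [NormedField K] [CharZero K] (hE : Ext p K) :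
    ‖(p : K)‖ = (p : ℝ)⁻¹ := by
  have : Fact p.Prime := ⟨hp⟩
  rw [nrm_nat K hE, padicNorm.padicNorm_p_of_prime]
  push_cast
  rfl

theorem nrm_le_one {p : ℕ} (hp : p.Prime) (K : Type) [NormedField K] [CharZero K] (hE : Ext p K)
    (n : ℕ) : ‖(n : K)‖ ≤ 1 := by
  have : Fact p.Prime := ⟨hp⟩
  rw [nrm_nat K hE]
  have h := padicNorm.of_int (p := p) (n : ℤ)
  have h' : padicNorm p (n : ℚ) ≤ 1 := by exact_mod_cast h
  exact_mod_cast h'

theorem nrm_unit {p : ℕ} (hp : p.Prime) (K : Type) [NormedField K] [CharZero K] (hE : Ext p K)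
    (n : ℕ) (hn : ¬ p ∣ n) : ‖(n : K)‖ = 1 := by
  have : Fact p.Prime := ⟨hp⟩
  rw [nrm_nat K hE, (padicNorm.nat_eq_one_iff n).2 hn]
  norm_num

/-- `‖n‖ = p ^ (-v)`, `p ^ v ∣ n`. -/
theorem nrm_val {p : ℕ} (hp : p.Prime) (K : Type) [NormedField K] [CharZero K] (hE : Ext p K)
    (n : ℕ) (hn : n ≠ 0) : ‖(n : K)‖ = ((p : ℝ)⁻¹) ^ (padicValNat p n) := by
  have : Fact p.Prime := ⟨hp⟩
  rw [nrm_nat K hE, padicNorm.eq_zpow_of_nonzero (by exact_mod_cast hn)]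
  rw [padicValRat.of_nat, zpow_neg, zpow_natCast, Rat.cast_inv, Rat.cast_pow, Rat.cast_natCast,
    inv_pow]

/-- `(p - 1) v ≤ n - 1` if `p ^ v ∣ n`. -/
theorem val_bd {p : ℕ} (hp : p.Prime) (n : ℕ) (hn : n ≠ 0) :
    (p - 1) * padicValNat p n + 1 ≤ n := by
  have : Fact p.Prime := ⟨hp⟩
  have h1 : p ^ padicValNat p n ≤ n := Nat.le_of_dvd (Nat.pos_of_ne_zero hn) pow_padicValNat_dvd
  have h2 : ∀ v : ℕ, (p - 1) * v + 1 ≤ p ^ v := by
    intro v
    have hp1 := hp.one_lt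
    induction v with
    | zero => simp
    | succ v ih =>
      have h3 : 1 ≤ p ^ v := Nat.one_le_pow _ _ (by omega)
      obtain ⟨q, rfl⟩ : ∃ q, p = q + 1 := ⟨p - 1, by omega⟩
      rw [pow_succ]
      simp only [Nat.add_sub_cancel] at ih ⊢
      nlinarith
  exact (h2 _).trans h1

theorem th_bd {p : ℕ} (hp : p.Prime) (hp5 : 5 ≤ p) (thb : THBStmt) (K : Type) [NormedField K]
    [CharZero K] (hE : Ext p K) (n : ℕ) (hn : n ≠ 0) : th p ^ (n - 1) ≤ ‖(n : K)‖ := by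
  obtain ⟨h1, h2, h3, -, -⟩ := thb p hp hp5
  rw [nrm_val hp K hE n hn, ← h1, ← pow_mul]
  refine pow_le_pow_of_le_one h2.le h3.le ?_
  have := val_bd hp n hn
  omega

theorem hs_le {K : Type} [NormedField K] [IsUltrametricDist K] (f : ℕ → K) (a : K) (C : ℝ)
    (h : HasSum f a) (hC : 0 ≤ C) (hf : ∀ n, ‖f n‖ ≤ C) : ‖a‖ ≤ C := by
  refine le_of_tendsto (Filter.Tendsto.norm h) ?_
  refine Filter.Eventually.of_forall fun s => ?_
  exact IsUltrametricDist.norm_sum_le_of_forall_le_of_nonneg hC fun i _ => hf i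

/-- The tail of the series. -/
theorem tail {p : ℕ} (K : Type) [NormedField K] [CharZero K] [IsUltrametricDist K]
    (Log : K → K) (hL : IsLog p Log) (x : K) (hx : ‖x‖ < 1) (C : ℝ) (hC : 0 ≤ C)
    (h : ∀ n : ℕ, ‖x‖ ^ (n + 2) / ‖((n + 2 : ℕ) : K)‖ ≤ C) : ‖Log (1 + x) - x‖ ≤ C := by
  have h1 := hL.ser x hx
  have h2 := (hasSum_nat_add_iff' 1).2 h1
  have h3 : ∑ i ∈ Finset.range 1, (-1 : K) ^ i * x ^ (i + 1) / ((i : K) + 1) = x := by
    simp
  rw [h3] at h2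
  refine hs_le _ _ C h2 hC fun n => ?_
  have h4 : ‖(-1 : K) ^ (n + 1) * x ^ (n + 1 + 1) / (((n + 1 : ℕ) : K) + 1)‖ =
      ‖x‖ ^ (n + 2) / ‖((n + 2 : ℕ) : K)‖ := by
    rw [norm_div, norm_mul, norm_pow, norm_pow, norm_neg, norm_one, one_pow, one_mul]
    congr 2
    push_cast
    ring
  rw [h4]
  exact h n

theorem log_one {p : ℕ} {K : Type} [NormedField K] (Log : K → K) (hL : IsLog p Log) :
    Log 1 = 0 := by
  have h := hL.mul 1 1 one_ne_zero one_ne_zero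
  rw [mul_one] at h
  simpa using h

theorem log_npow {p : ℕ} {K : Type} [NormedField K] (Log : K → K) (hL : IsLog p Log) (x : K)
    (hx : x ≠ 0) (n : ℕ) : Log (x ^ n) = n * Log x := by
  induction n with
  | zero => simp [log_one Log hL]
  | succ n ih =>
    rw [pow_succ, hL.mul _ _ (pow_ne_zero _ hx) hx, ih]
    push_cast
    ring

theorem log_inv {p : ℕ} {K : Type} [NormedField K] (Log : K → K) (hL : IsLog p Log) (x : K)
    (hx : x ≠ 0) : Log x⁻¹ = - Log x := by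
  have h := hL.mul x x⁻¹ hx (inv_ne_zero hx)
  rw [mul_inv_cancel₀ hx, log_one Log hL] at h
  exact (neg_eq_of_add_eq_zero_right h.symm).symm

theorem log_zpow {p : ℕ} {K : Type} [NormedField K] (Log : K → K) (hL : IsLog p Log) (x : K)
    (hx : x ≠ 0) (n : ℤ) : Log (x ^ n) = n * Log x := by
  obtain ⟨m, rfl | rfl⟩ := n.eq_nat_or_neg
  · rw [zpow_natCast, log_npow Log hL x hx]
    push_cast
    rfl
  · rw [zpow_neg, zpow_natCast, log_inv Log hL _ (pow_ne_zero _ hx), log_npow Log hL x hx]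
    push_cast
    ring

/-- `(1 + e) ^ p - 1` for `‖e‖ ≤ 1`. -/
theorem pow_p {p : ℕ} (hp : p.Prime) (K : Type) [NormedField K] [CharZero K]
    [IsUltrametricDist K] (hE : Ext p K) (e : K) (he : ‖e‖ ≤ 1) :
    ‖(1 + e) ^ p - 1‖ ≤ max (‖e‖ ^ p) (p : ℝ)⁻¹ := by
  obtain ⟨q, hq⟩ : ∃ q, p = q + 1 := ⟨p - 1, by have := hp.one_lt; omega⟩
  have h1 : (1 + e) ^ p - 1 = (∑ m ∈ Finset.range q, e ^ (m + 1) * (p.choose (m + 1) : K)) +
      e ^ p := by
    rw [add_comm 1 e, add_pow, Finset.sum_range_succ]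
    conv_lhs => rw [hq]
    rw [Finset.sum_range_succ']
    rw [← hq]
    simp only [one_pow, mul_one, pow_zero, Nat.choose_zero_right, Nat.cast_one, Nat.choose_self]
    ring
  rw [h1]
  refine (IsUltrametricDist.norm_add_le_max _ _).trans ?_
  rw [max_comm]
  refine max_le_max (by rw [norm_pow]) ?_
  refine IsUltrametricDist.norm_sum_le_of_forall_le_of_nonneg (by positivity) fun m hm => ?_
  have hm' := Finset.mem_range.1 hm
  obtain ⟨c, hc⟩ := hp.dvd_choose_self (k := m + 1) (by omega) (by omega)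
  rw [hc]
  push_cast
  rw [norm_mul, norm_mul, nrm_p hp K hE, norm_pow]
  have h2 : ‖(c : K)‖ ≤ 1 := nrm_le_one hp K hE c
  have h3 : ‖e‖ ^ (m + 1) ≤ 1 := pow_le_one₀ (norm_nonneg _) he
  have h4 : 0 ≤ (p : ℝ)⁻¹ := by positivity
  calc ‖e‖ ^ (m + 1) * ((p : ℝ)⁻¹ * ‖(c : K)‖) ≤ 1 * ((p : ℝ)⁻¹ * 1) := by
        refine mul_le_mul h3 (mul_le_mul_of_nonneg_left h2 h4) (by positivity) zero_le_one
    _ = (p : ℝ)⁻¹ := by ring

theorem pow_pk {p : ℕ} (hp : p.Prime) (K : Type) [NormedField K] [CharZero K]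
    [IsUltrametricDist K] (hE : Ext p K) (d : K) (k : ℕ) (hd : ‖d‖ < 1) :
    ‖(1 + d) ^ (p ^ k) - 1‖ ≤ max (‖d‖ ^ (p ^ k)) (p : ℝ)⁻¹ := by
  have hp1 : (1 : ℝ) ≤ p := by exact_mod_cast hp.one_lt.le
  have hi : (p : ℝ)⁻¹ ≤ 1 := inv_le_one_of_one_le₀ hp1
  have hi0 : 0 ≤ (p : ℝ)⁻¹ := by positivity
  induction k with
  | zero => simp
  | succ k ih =>
    have h1 : ‖(1 + d) ^ (p ^ k) - 1‖ ≤ 1 :=
      ih.trans (max_le (pow_le_one₀ (norm_nonneg _) hd.le) hi)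
    have h2 := pow_p hp K hE _ h1
    have h3 : (1 + ((1 + d) ^ (p ^ k) - 1)) ^ p = (1 + d) ^ (p ^ (k + 1)) := by
      rw [pow_succ, pow_mul]
      congr 1
      ring
    rw [h3] at h2
    refine h2.trans (max_le ?_ (le_max_right _ _))
    have h4 : ‖(1 + d) ^ (p ^ k) - 1‖ ^ p ≤ (max (‖d‖ ^ (p ^ k)) (p : ℝ)⁻¹) ^ p :=
      pow_le_pow_left₀ (norm_nonneg _) ih p
    refine h4.trans ?_
    rcases le_total (‖d‖ ^ (p ^ k)) (p : ℝ)⁻¹ with h | h
    · rw [max_eq_right h]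
      refine le_trans ?_ (le_max_right _ _)
      exact pow_le_of_le_one hi0 hi hp.ne_zero
    · rw [max_eq_left h, ← pow_mul, ← pow_succ]
      exact le_max_left _ _

/-- Row LGB. -/
theorem lgb (thb : THBStmt) (_urr : URRStmt) : LgbStmt := by
  intro p hp hp5 K _ _ _ hE Log hL
  obtain ⟨h1, h2, h3, h4, -⟩ := thb p hp hp5
  have hp1 : (1 : ℝ) < p := by exact_mod_cast hp.one_lt
  have hthp : (p : ℝ)⁻¹ < th p := by
    refine h4.trans_le ?_
    exact pow_le_of_le_one h2.le h3.le (by norm_num)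
  have hlog4 : ∀ x : K, ‖x‖ < th p → ‖Log (1 + x)‖ = ‖x‖ := by
    intro x hx
    by_cases hx0 : x = 0
    · subst hx0
      simp [log_one Log hL]
    have hxp : 0 < ‖x‖ := norm_pos_iff.2 hx0
    have hx1 : ‖x‖ < 1 := hx.trans h3
    have hr : ‖x‖ / th p < 1 := (div_lt_one h2).2 hx
    have hr0 : 0 ≤ ‖x‖ / th p := by positivity
    have h5 : ‖Log (1 + x) - x‖ ≤ ‖x‖ * (‖x‖ / th p) := by
      refine tail K Log hL x hx1 _ (by positivity) fun n => ?_
      have hN : 0 < ‖((n + 2 : ℕ) : K)‖ := norm_pos_iff.2 (by exact_mod_cast (by omega : n + 2 ≠ 0))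
      rw [div_le_iff₀ hN]
      have h6 := th_bd hp hp5 thb K hE (n + 2) (by omega)
      have h7 : ‖x‖ ^ (n + 2) = ‖x‖ * (‖x‖ / th p) ^ (n + 1) * th p ^ (n + 1) := by
        rw [mul_assoc, ← mul_pow, div_mul_cancel₀ _ h2.ne']
        ring
      rw [h7]
      have h8 : (‖x‖ / th p) ^ (n + 1) ≤ ‖x‖ / th p := pow_le_of_le_one hr0 hr.le (by omega)
      exact mul_le_mul (mul_le_mul_of_nonneg_left h8 hxp.le) h6 (by positivity) (by positivity)
    have h6 : ‖Log (1 + x) - x‖ < ‖x‖ := by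
      refine h5.trans_lt ?_
      calc ‖x‖ * (‖x‖ / th p) < ‖x‖ * 1 := mul_lt_mul_of_pos_left hr hxp
        _ = ‖x‖ := mul_one _
    have h7 : Log (1 + x) = (Log (1 + x) - x) + x := by ring
    rw [h7, IsUltrametricDist.norm_add_eq_max_of_norm_ne_norm h6.ne, max_eq_right h6.le]
  refine ⟨⟨log_one Log hL, fun x n hx => log_zpow Log hL x hx n⟩, ?_, ?_, hlog4, ?_, ?_, ?_⟩
  · intro x y hx hy
    rw [div_eq_mul_inv, hL.mul _ _ hx (inv_ne_zero hy), log_inv Log hL y hy]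
    ring
  · rintro x ⟨M, hM, hx⟩
    have hx0 : x ≠ 0 := by
      rintro rfl
      rw [zero_pow (by omega)] at hx
      exact zero_ne_one hx
    have h := log_npow Log hL x hx0 M
    rw [hx, log_one Log hL] at h
    have hM0 : (M : K) ≠ 0 := by exact_mod_cast (by omega : M ≠ 0)
    rcases mul_eq_zero.1 h.symm with h' | h'
    · exact absurd h' hM0
    · exact h'
  · intro x hx
    have hth2 : th p ^ 2 < 1 := pow_lt_one₀ h2.le h3 (by norm_num)
    have hx1 : ‖x‖ < 1 := hx.trans_lt hth2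
    refine tail K Log hL x hx1 _ (by positivity) fun n => ?_
    have hN : 0 < ‖((n + 2 : ℕ) : K)‖ := norm_pos_iff.2 (by exact_mod_cast (by omega : n + 2 ≠ 0))
    rw [div_le_iff₀ hN]
    have h5 : ‖x‖ ^ (n + 2) = ‖x‖ ^ 2 * ‖x‖ ^ n := by ring
    rw [h5]
    refine mul_le_mul_of_nonneg_left ?_ (by positivity)
    rcases Nat.eq_zero_or_pos n with rfl | hn
    · rw [pow_zero, nrm_unit hp K hE (0 + 2)]
      intro hd
      have := Nat.le_of_dvd (by norm_num) hd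
      omega
    · have h6 := th_bd hp hp5 thb K hE (n + 2) (by omega)
      refine le_trans ?_ h6
      calc ‖x‖ ^ n ≤ (th p ^ 2) ^ n := pow_le_pow_left₀ (norm_nonneg _) hx n
        _ = th p ^ (2 * n) := by rw [← pow_mul]
        _ ≤ th p ^ (n + 2 - 1) := pow_le_pow_of_le_one h2.le h3.le (by omega)
  · rintro a ⟨⟨ha1, F, hF, ha⟩, hna⟩
    have ha0 : a ≠ 0 := by
      rintro rfl
      rw [norm_zero] at hna
      exact zero_ne_one hna
    have hq1 : 1 ≤ p ^ F := Nat.one_le_pow _ _ hp.pos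
    have h5 : a * (a ^ (p ^ F - 1) - 1) = a ^ (p ^ F) - a := by
      rw [mul_sub, mul_one, ← pow_succ', Nat.sub_add_cancel hq1]
    have h6 : ‖a ^ (p ^ F - 1) - 1‖ ≤ (p : ℝ)⁻¹ := by
      have : ‖a‖ * ‖a ^ (p ^ F - 1) - 1‖ = ‖a ^ (p ^ F) - a‖ := by rw [← norm_mul, h5]
      rw [hna, one_mul] at this
      rw [this]
      exact ha
    have h7 := hlog4 (a ^ (p ^ F - 1) - 1) (h6.trans_lt hthp)
    have h8 : 1 + (a ^ (p ^ F - 1) - 1) = a ^ (p ^ F - 1) := by ring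
    rw [h8, log_npow Log hL a ha0, norm_mul, nrm_unit hp K hE, one_mul] at h7
    · rw [h7]
      exact h6
    · intro hd
      have h9 : p ∣ p ^ F := dvd_pow_self p (by omega)
      have h10 : p ∣ 1 := by
        have := Nat.dvd_sub h9 hd
        rwa [Nat.sub_sub_self hq1] at this
      exact hp.one_lt.ne' (Nat.dvd_one.1 h10)
  · intro d k hd
    exact pow_pk hp K hE d k hd

end

end Pool.Agent.ZPK.H27
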