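import Mathlib
import Pool.Agent.ZPK.StmtsR

/-!
# Squad ZPK, row RNS (helper27): a small coordinate at the radius of `e ≥ e'`.
-/

set_option autoImplicit false

namespace Pool.Agent.ZPK.H27

open Pool.Agent.ZPT Pool.Agent.ZP3

noncomputable section

theorem nrm_p' {p : ℕ} (hp : p.Prime) (K : Type) [NormedField K] [CharZero K] (hE : Ext p K) :
    ‖(p : K)‖ = (p : ℝ)⁻¹ := by
  have : Fact p.Prime := ⟨hp⟩
  have h := hE (p : ℚ)
  rw [padicNorm.padicNorm_p_of_prime] at h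
  push_cast at h
  exact h

theorem rns (rsm : RsmStmt) : RnsStmt := by
  intro U hU p hp hp5 K _ _ _ _ hE L e e' A g hC he hee t q ht0 ht1 hS hA
  have htne : t ≠ 0 := norm_pos_iff.1 ht0
  have hg0 : g ≠ 0 := by
    rintro rfl
    have := hC.g1
    rw [norm_zero] at this
    exact zero_ne_one this
  have hS' : Sm p e' t := lt_of_lt_of_le hS (pow_le_pow_of_le_one ht0.le ht1.le hee)
  obtain ⟨h1, h2, -⟩ := rsm U hU p hp hp5 K hE L e' A g hC t q ht0 ht1 hS' hA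
  refine ⟨h1, ?_⟩
  have hp0 : (0 : ℝ) < p := by exact_mod_cast hp.pos
  have hpn := nrm_p' hp K hE
  have hw : ‖(p : K) / t ^ e‖ = (p : ℝ)⁻¹ / ‖t‖ ^ e := by
    rw [norm_div, norm_pow, hpn]
  have hw' : ‖(p : K) / t ^ e'‖ = (p : ℝ)⁻¹ / ‖t‖ ^ e' := by
    rw [norm_div, norm_pow, hpn]
  have hpw : (p : ℝ)⁻¹ ≤ ‖t‖ * ‖(p : K) / t ^ e‖ := by
    have h3 : (p : ℝ)⁻¹ = ‖t‖ ^ e * ‖(p : K) / t ^ e‖ := by
      rw [hw]
      field_simp
    calc (p : ℝ)⁻¹ = ‖t‖ ^ e * ‖(p : K) / t ^ e‖ := h3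
      _ ≤ ‖t‖ * ‖(p : K) / t ^ e‖ :=
          mul_le_mul_of_nonneg_right (pow_le_of_le_one ht0.le ht1.le (by omega)) (norm_nonneg _)
  by_cases hE' : e' = e
  · subst hE'
    have h4 : g * (1 + lS e' e' A g * ((p : K) / t ^ e')) = g + A 0 * ((p : K) / t ^ e') := by
      unfold lS
      rw [if_pos rfl]
      field_simp
    rw [h4]
    refine h2.trans (max_le hpw ?_)
    rw [mul_comm]
  · have hlt : e' < e := lt_of_le_of_ne hee hE'
    have h4 : g * (1 + lS e e' A g * ((p : K) / t ^ e)) = g := by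
      unfold lS
      rw [if_neg hE']
      ring
    rw [h4]
    have h5 : ‖(p : K) / t ^ e'‖ ≤ ‖t‖ * ‖(p : K) / t ^ e‖ := by
      have h6 : (p : K) / t ^ e' = t ^ (e - e') * ((p : K) / t ^ e) := by
        have h7 : t ^ e = t ^ (e - e') * t ^ e' := by
          rw [← pow_add]
          congr 1
          omega
        rw [h7]
        field_simp
      rw [h6, norm_mul, norm_pow]
      exact mul_le_mul_of_nonneg_right (pow_le_of_le_one ht0.le ht1.le (by omega)) (norm_nonneg _)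
    have h6 : (p : K) * q⁻¹ - g =
        ((p : K) * q⁻¹ - (g + A 0 * ((p : K) / t ^ e'))) + A 0 * ((p : K) / t ^ e') := by ring
    rw [h6]
    refine (IsUltrametricDist.norm_add_le_max _ _).trans (max_le ?_ ?_)
    · refine h2.trans (max_le hpw ?_)
      calc ‖(p : K) / t ^ e'‖ * ‖t‖ ≤ ‖(p : K) / t ^ e'‖ * 1 :=
            mul_le_mul_of_nonneg_left ht1.le (norm_nonneg _)
        _ = ‖(p : K) / t ^ e'‖ := mul_one _
        _ ≤ _ := h5
    · rw [norm_mul]
      calc ‖A 0‖ * ‖(p : K) / t ^ e'‖ ≤ 1 * ‖(p : K) / t ^ e'‖ :=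
            mul_le_mul_of_nonneg_right (hC.An1 0) (norm_nonneg _)
        _ = ‖(p : K) / t ^ e'‖ := one_mul _
        _ ≤ _ := h5

end

end Pool.Agent.ZPK.H27
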